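import Pool.Agent.T9h36.N1.Spec
import Pool.Agent.T9h71.NK.M0
import Pool.Agent.T9h48.NK.TrCore

/-! Project NK (MP_727bc7_co), slope 1 (helper36): piece N6, no neighbour of type C. -/

set_option autoImplicit false

open Set
open scoped RealInnerProductSpace

namespace Pool.Agent.T9h71.N1

open Pool.Agent.T9h98.DC Pool.Agent.T9h98.NK Pool.Agent.T9h44.NK Pool.Agent.T9h36.N1
open Pool.Agent.T9h48.NK (face_image dm_image)
open Pool.Agent.T9h71.NK (vx_fun adj_mem)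

theorem adj_image {d : ℕ} {P : Set (E d)} (h : E d ≃ₗᵢ[ℝ] E d) (hP : h '' P = P) {a b : E d}
    (hab : Adj P a b) : Adj P (h a) (h b) := by
  refine ⟨fun e => hab.1 (h.injective e), ?_⟩
  have h1 := face_image h hP hab.2
  have e : h '' segment ℝ a b = segment ℝ (h a) (h b) :=
    image_segment ℝ (h.toLinearEquiv.toLinearMap.toAffineMap) a b
  rwa [e] at h1

theorem cor_image {d : ℕ} {P : Set (E d)} (h : E d ≃ₗᵢ[ℝ] E d) (hP : h '' P = P) {a b c : E d}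
    (hc : Cor P a b c) : Cor P (h a) (h b) (h c) := by
  obtain ⟨h1, h2, h3, T, h4, h5, h6, h7, h8⟩ := hc
  exact ⟨adj_image h hP h1, adj_image h hP h2, fun e => h3 (h.injective e), h '' T,
    face_image h hP h4, (dm_image T h).trans h5, mem_image_of_mem _ h6, mem_image_of_mem _ h7,
    mem_image_of_mem _ h8⟩

/-- the angle at `v` of the triangle `w, v, u` is at most the angle of the 2-face at `v` -/
theorem angle (hE : S_EDGE) (hPl : S_PLANE) {D : ℕ} {P : Set (E (D + 1))} (hP : IsPolytope P)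
    {w v u : E (D + 1)} {g : ℝ} (hg : 0 ≤ g) (hg1 : g ≤ 1) (hL : LocC P v g) (hc : Cor P w v u) :
    g * (‖u - v‖ * ‖w - v‖) ≤ ⟪u - v, w - v⟫ := by
  obtain ⟨y, hy, ⟨α, β, hα, hβ, hyw⟩, -⟩ := hE D P hP w v u hc
  obtain ⟨-, hcone⟩ := hPl D P hP v w y hy
  have huP : u ∈ P := (adj_mem hc.2.1).2
  have e0 : β • (u - v) = (β + α - 1) • (w - v) + (y - v) := by
    have h0 : y - v = α • (v - w) + β • (u - w) + (w - v) := by
      rw [← hyw]; abel
    rw [h0]; module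
  obtain ⟨a, b, hab⟩ : ∃ a b : ℝ, u - v = a • (w - v) + b • (y - v) := by
    refine ⟨β⁻¹ * (β + α - 1), β⁻¹, ?_⟩
    rw [mul_smul, ← smul_add, ← e0, smul_smul, inv_mul_cancel₀ hβ.ne', one_smul]
  obtain ⟨ha, hb⟩ := hcone u huP a b hab
  have hcorr := hL.cor w y hy
  have h1 : ⟪u - v, w - v⟫ = a * ‖w - v‖ ^ 2 + b * (g * (‖w - v‖ * ‖y - v‖)) := by
    rw [hab, inner_add_left, real_inner_smul_left, real_inner_smul_left,
      real_inner_self_eq_norm_sq, real_inner_comm, hcorr]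
  have h2 : ‖u - v‖ ≤ a * ‖w - v‖ + b * ‖y - v‖ := by
    rw [hab]
    refine (norm_add_le _ _).trans ?_
    rw [norm_smul, norm_smul, Real.norm_of_nonneg ha, Real.norm_of_nonneg hb]
  rw [h1]
  have h3 : g * (‖u - v‖ * ‖w - v‖) ≤ g * ((a * ‖w - v‖ + b * ‖y - v‖) * ‖w - v‖) :=
    mul_le_mul_of_nonneg_left (mul_le_mul_of_nonneg_right h2 (norm_nonneg _)) hg
  have h4 : 0 ≤ (1 - g) * (a * ‖w - v‖ ^ 2) := mul_nonneg (by linarith) (mul_nonneg ha (sq_nonneg _))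
  nlinarith [h3, h4]

/-- the triangle with two equal sides -/
theorem tri {d : ℕ} (a b : E d) (g l : ℝ) (hg : 0 ≤ g) (hl : 0 ≤ l) (ha : ‖a‖ = l) (hb : ‖b‖ = l) (hab : a ≠ b)
    (h : g * (‖b - a‖ * ‖a‖) ≤ ⟪b - a, -a⟫) : ⟪a, b⟫ ≤ (1 - 2 * g ^ 2) * l ^ 2 := by
  have hs : 0 < ‖b - a‖ := norm_pos_iff.2 (sub_ne_zero.2 hab.symm)
  have h1 : ‖b - a‖ ^ 2 = 2 * l ^ 2 - 2 * ⟪a, b⟫ := by
    rw [norm_sub_sq_real, ha, hb, real_inner_comm]; ring
  have h2 : ⟪b - a, -a⟫ = l ^ 2 - ⟪a, b⟫ := by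
    rw [inner_neg_right, inner_sub_left, real_inner_self_eq_norm_sq, ha, real_inner_comm]; ring
  rw [h2, ha] at h
  have h3 : 2 * (g * l) ≤ ‖b - a‖ := by
    by_contra hcon
    push Not at hcon
    have h4 : ‖b - a‖ * ‖b - a‖ < 2 * (g * l) * ‖b - a‖ := mul_lt_mul_of_pos_right hcon hs
    nlinarith
  have h5 : (2 * (g * l)) ^ 2 ≤ ‖b - a‖ ^ 2 := pow_le_pow_left₀ (by positivity) h3 2
  nlinarith

theorem n6 (hF : S_FACES) (hVF : S_VF) (hNB : S_NB) (hC : S_CONE) (hE : S_EDGE) (hPl : S_PLANE)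
    (hS : S_SIMP) : S_N6 := by
  classical
  intro D P H w n v ι g hD hP hH hdat hwv hL hPT
  obtain ⟨D', rfl⟩ : ∃ D', D = D' + 1 := ⟨D - 1, by omega⟩
  obtain ⟨hVw, hSup, hn0, hOrt, hst⟩ := hdat
  have hQ : IsPolytope (fig w n ι P) := (hVF (D' + 1) P w n ι hP hVw hSup hn0 hOrt).1
  obtain ⟨nb1, nb2, nb3, nb4⟩ := hNB (D' + 1) P w n ι hP hVw hSup hn0 hOrt
  -- the number g
  have hDr : (15 : ℝ) ≤ ((D' + 1 : ℕ) : ℝ) := by exact_mod_cast hD
  have hg1 : g < 1 := hL.glt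
  have hg2 : 13 / 15 < g := by
    have h1 := hL.ggt
    have h2 : 2 / ((D' + 1 : ℕ) : ℝ) ≤ 2 / 15 := div_le_div_of_nonneg_left (by norm_num) (by norm_num) hDr
    linarith
  have hk : 1 - 2 * g ^ 2 < -1 / 2 := by nlinarith
  -- transitivity
  have key1 : ∀ y, Adj P w y → ∃ h ∈ H, h w = w ∧ h n = n ∧ h v = y := by
    intro y hy
    obtain ⟨x, hx, hxp⟩ := nb1 y hy
    obtain ⟨x0, hx0, hx0p⟩ := nb1 v hwv
    obtain ⟨k, hk, hkx⟩ := vtrans hPT x0 x hx0 hx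
    obtain ⟨h, hh, hhw, hhι⟩ := hk
    have hhn : h n = n := hst h hh hhw
    have h1 : Pr w n ι (h v) x := by
      obtain ⟨t, ht, e⟩ := hx0p
      refine ⟨t, ht, ?_⟩
      calc h v - w = h v - h w := by rw [hhw]
        _ = h (v - w) := (map_sub h v w).symm
        _ = t • (n + ι x) := by rw [e, map_smul, map_add, hhn, ← hhι, hkx]
    have h2 : Adj P w (h v) := by
      have := adj_image h (hH h hh) hwv
      rwa [hhw] at this
    exact ⟨h, hh, hhw, hhn, (nb3 (h v) y x x h2 hy h1 hxp).1 rfl⟩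
  have hlen : ∀ y, Adj P w y → ‖y - w‖ = ‖v - w‖ := by
    intro y hy
    obtain ⟨h, hh, hhw, hhn, hhv⟩ := key1 y hy
    have e : y - w = h (v - w) := by rw [map_sub, hhw, hhv]
    rw [e, h.norm_map]
  have hinn : ∀ y, Adj P w y → ⟪y - w, n⟫ = ⟪v - w, n⟫ := by
    intro y hy
    obtain ⟨h, hh, hhw, hhn, hhv⟩ := key1 y hy
    have e : y - w = h (v - w) := by rw [map_sub, hhw, hhv]
    conv_lhs => rw [e, ← hhn]
    exact h.inner_map_map _ _
  have key2 : ∀ u, Cor P w v u → ⟪v - w, u - w⟫ ≤ (1 - 2 * g ^ 2) * ‖v - w‖ ^ 2 := by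
    intro u hu
    have h1 := angle hE hPl hP (by linarith) hg1.le hL hu
    apply tri (v - w) (u - w) g ‖v - w‖ (by linarith) (norm_nonneg _) rfl (hlen u hu.2.1)
    · intro e
      exact hu.2.2.1 (sub_left_injective e)
    · have e1 : u - w - (v - w) = u - v := by abel
      have e2 : -(v - w) = w - v := by abel
      rw [e1, e2, ← norm_neg (v - w), e2]
      exact h1
  have key2' : ∀ y u, Cor P w y u → ⟪y - w, u - w⟫ ≤ (1 - 2 * g ^ 2) * ‖v - w‖ ^ 2 := by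
    intro y u hu
    obtain ⟨h, hh, hhw, hhn, hhv⟩ := key1 y hu.1
    have hinv : h.symm w = w := by
      conv_lhs => rw [← hhw]
      exact h.symm_apply_apply w
    have hinv2 : h.symm y = v := by
      rw [← hhv]; exact h.symm_apply_apply v
    have hPi : h.symm '' P = P := hH h⁻¹ (H.inv_mem hh)
    have h1 := cor_image h.symm hPi hu
    rw [hinv, hinv2] at h1
    have h2 := key2 _ h1
    have e1 : ⟪y - w, u - w⟫ = ⟪h.symm (y - w), h.symm (u - w)⟫ := (h.symm.inner_map_map _ _).symm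
    rw [e1, map_sub, map_sub, hinv, hinv2]
    exact h2
  -- the figure
  obtain ⟨x0, hx0, hx0p⟩ := nb1 v hwv
  have hrho : ∀ x, Vx (fig w n ι P) x → ‖x‖ = ‖x0‖ := by
    intro x hx
    obtain ⟨k, hk, hkx⟩ := vtrans hPT x0 x hx0 hx
    rw [← hkx, k.norm_map]
  obtain ⟨-, -, hfin, -, -, -, -, -, hA, -⟩ := hF (D' + 1) _ hQ.1
  have hnn : 0 < ‖n‖ ^ 2 := by
    have := norm_pos_iff.2 hn0
    positivity
  have key3 : ∀ x x', Adj (fig w n ι P) x x' → ⟪x, x'⟫ ≤ (1 - 2 * g ^ 2) * ‖x0‖ ^ 2 := by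
    intro x x' hxx
    obtain ⟨y, hy, t, ht, ey⟩ := nb2 x (hA x x' hxx).1
    obtain ⟨y', hy', t', ht', ey'⟩ := nb2 x' (hA x x' hxx).2.1
    obtain ⟨hne, T, h4, h5, h6, h7, h8⟩ := (nb4 y y' x x' hy hy' ⟨t, ht, ey⟩ ⟨t', ht', ey'⟩).1 hxx
    have hcor : Cor P w y y' := ⟨hy, hy', hne, T, h4, h5, h6, h7, h8⟩
    have hcb := key2' y y' hcor
    have i1 : ∀ (s : ℝ) (z : E (D' + 1)), ⟪s • (n + ι z), n⟫ = s * ‖n‖ ^ 2 := by
      intro s z
      rw [real_inner_smul_left, inner_add_left, real_inner_self_eq_norm_sq, real_inner_comm, hOrt z, add_zero]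
    have htt : t = t' := by
      have a1 := hinn y hy
      have a2 := hinn y' hy'
      rw [ey, i1] at a1
      rw [ey', i1, ← a1] at a2
      exact (mul_right_cancel₀ hnn.ne' a2).symm
    subst htt
    have i2 : ∀ z z' : E (D' + 1), ⟪t • (n + ι z), t • (n + ι z')⟫ = t ^ 2 * (‖n‖ ^ 2 + ⟪z, z'⟫) := by
      intro z z'
      rw [real_inner_smul_left, real_inner_smul_right, inner_add_left, inner_add_right, inner_add_right,
        real_inner_self_eq_norm_sq, hOrt z', ι.inner_map_map, real_inner_comm n (ι z), hOrt z]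
      ring
    have b1 : ‖v - w‖ ^ 2 = t ^ 2 * (‖n‖ ^ 2 + ‖x0‖ ^ 2) := by
      rw [← hlen y hy, ← real_inner_self_eq_norm_sq, ey, i2, real_inner_self_eq_norm_sq, hrho x (hA x x' hxx).1]
    rw [ey, ey', i2, b1] at hcb
    have ht2 : 0 < t ^ 2 := by positivity
    have c1 : t ^ 2 * (‖n‖ ^ 2 + ⟪x, x'⟫) ≤ t ^ 2 * ((1 - 2 * g ^ 2) * (‖n‖ ^ 2 + ‖x0‖ ^ 2)) := by
      linarith
    have c2 := le_of_mul_le_mul_left c1 ht2
    have c3 : (1 - 2 * g ^ 2) * ‖n‖ ^ 2 ≤ 0 := mul_nonpos_of_nonpos_of_nonneg (by linarith) hnn.le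
    nlinarith
  have key4 : ∀ x x', Vx (fig w n ι P) x → Vx (fig w n ι P) x' → x ≠ x' →
      ⟪x, x'⟫ ≤ (1 - 2 * g ^ 2) * ‖x0‖ ^ 2 := by
    intro x x' hx hx' hne
    obtain ⟨hxQ, l, hl⟩ := vx_fun hx'
    obtain ⟨S, b, hSb, hsum⟩ := hC D' _ x hQ hx x' hxQ
    have hL1 : 1 ≤ ∑ y ∈ S, b y := by
      by_contra hcon
      push Not at hcon
      have h3 : l x' - l x = ∑ y ∈ S, b y * (l y - l x) := by
        rw [← map_sub, hsum, map_sum]
        refine Finset.sum_congr rfl fun y _ => ?_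
        rw [map_smul, map_sub, smul_eq_mul]
      have h4 : ∑ y ∈ S, b y * (l y - l x) ≤ ∑ y ∈ S, b y * (l x' - l x) := by
        refine Finset.sum_le_sum fun y hy => mul_le_mul_of_nonneg_left ?_ (hSb y hy).2
        have hyP := (adj_mem (hSb y hy).1).2
        by_cases hyw : y = x'
        · rw [hyw]
        · have := hl y hyP hyw
          linarith
      rw [← Finset.sum_mul] at h4
      have h5 : l x < l x' := hl x (vx_fun hx).1 hne
      nlinarith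
    have h6 : ⟪x, x' - x⟫ ≤ ∑ y ∈ S, b y * ((1 - 2 * g ^ 2) * ‖x0‖ ^ 2 - ‖x0‖ ^ 2) := by
      rw [hsum, inner_sum]
      refine Finset.sum_le_sum fun y hy => ?_
      rw [real_inner_smul_right, inner_sub_right, real_inner_self_eq_norm_sq, hrho x hx]
      exact mul_le_mul_of_nonneg_left (by linarith [key3 x y (hSb y hy).1]) (hSb y hy).2
    rw [← Finset.sum_mul, inner_sub_right, real_inner_self_eq_norm_sq, hrho x hx] at h6
    have h7 : (∑ y ∈ S, b y) * ((1 - 2 * g ^ 2) * ‖x0‖ ^ 2 - ‖x0‖ ^ 2)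
        ≤ 1 * ((1 - 2 * g ^ 2) * ‖x0‖ ^ 2 - ‖x0‖ ^ 2) := by
      apply mul_le_mul_of_nonpos_right hL1
      nlinarith [sq_nonneg ‖x0‖]
    linarith
  -- three vertices
  set X := hfin.toFinset with hX
  have hmem : ∀ x, x ∈ X ↔ Vx (fig w n ι P) x := by
    intro x
    rw [hX, Set.Finite.mem_toFinset]
    rfl
  by_cases hc : X.card ≤ 2
  · obtain ⟨-, u, hu1, hu2, -⟩ := hS (D' + 1) _ X hQ (fun x hx => (hmem x).2 hx) (by omega)
    have h1 : Fintype.card (Fin (D' + 1 + 1)) ≤ X.card := by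
      rw [← Finset.card_univ]
      exact Finset.card_le_card_of_injOn u (fun i _ => (hmem _).2 (hu2 i)) (fun i _ j _ hij => hu1 hij)
    rw [Fintype.card_fin] at h1
    omega
  · push Not at hc
    obtain ⟨x, y, z, hx, hy, hz, hxy, hxz, hyz⟩ := Finset.two_lt_card_iff.1 hc
    rw [hmem] at hx hy hz
    have r1 := key4 x y hx hy hxy
    have r2 := key4 x z hx hz hxz
    have r3 := key4 y z hy hz hyz
    have hpos : 0 < ‖x0‖ ^ 2 := by
      rcases eq_or_ne x0 0 with h0 | h0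
      · exfalso
        apply hxy
        have a1 := hrho x hx
        have a2 := hrho y hy
        rw [h0, norm_zero, norm_eq_zero] at a1 a2
        rw [a1, a2]
      · have := norm_pos_iff.2 h0
        positivity
    have h0 : 0 ≤ ⟪x + y + z, x + y + z⟫ := real_inner_self_nonneg
    have h1 : ⟪x + y + z, x + y + z⟫ = ‖x‖ ^ 2 + ‖y‖ ^ 2 + ‖z‖ ^ 2 + 2 * (⟪x, y⟫ + ⟪x, z⟫ + ⟪y, z⟫) := by
      simp only [inner_add_left, inner_add_right, real_inner_self_eq_norm_sq]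
      rw [real_inner_comm x y, real_inner_comm x z, real_inner_comm y z]
      ring
    rw [h1, hrho x hx, hrho y hy, hrho z hz] at h0
    nlinarith

end Pool.Agent.T9h71.N1
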